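import Pool.Agent.Helper58.LD.Final

/-!
# MP_78803a_an, Q1: property (V) fails for every `l ≥ 1` and every `α₀` in `[0, l]`

For every `l ≥ 1` and `α₀ ∈ [0, l]` there are an analytic zero-free `f = e^φ` with `α(f) = α₀` and an analytic `P` with
`T(r, 1/P) = o(T(r, f))` such that `Ψ = (1/P) f^(l) = 1 + e^ψ` is not constant and omits the value `1`.

Construction. One keeps `F = e^φ`, `X = e^ψ`, `P` with `F^(l) = P (1 + X)`. A step with `N = e^T`, `w = z^N`: let `S` be about
`N^l / (2^(l+5) Π T)`, `|P| ≤ Π`; with a polynomial `k` close to `ψ - φ` and `λ = log S - Re k` on the circle, `X` is replaced by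
`X₁ = X exp(-2 ϱ w λ / (1 - ϱ w))`, so that `|X₁| ≤ S |F|`, with near equality on most of the circle, and `F` by `F₁ = F + δ`,
`δ^(l) = P (X₁ - X)`, where `|δ| ≤ |F| / (4T)` by integration with weight `|F|`. With `Y = 1 + X₁`,
`p = c z X₁ Y^(l+1) / F^(l+2)`, `|p| ≤ 1`, and `G = 2 μ r p / (1 - r p)`, `μ` up to `l T - √T`, the functions
`F₂ = F₁ e^G`, `1 + X₂ = Y e^G` satisfy `F₂^(l) = (P + ρ) (1 + X₂)` exactly, because `G` is divisible by `Y^(l+1)`; `X₂` is
zero-free because `|1 - e^(-G)| < |X₁|`; `ρ` is bounded by a power of `T`; and `Re G` is about `-μ` on most of the circle.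

Joint work of helpers 3, 4, 11, 13, 15, 16, 30, 44, 46, 49, 58, 64, 67, 70, 71, 89, 90, 97, 98, 99; the scheme for `l = 1` and the
library for it are due to helper61.
-/

set_option autoImplicit false

open Pool.Agent.Helper61.Nev

namespace Pool.Agent.Results.MP_78803a_an.FailsUpToL

/-- For every `l ≥ 1` and every `α₀ ∈ [0, l]` the statement of Q1 is false. -/
theorem result (l : ℕ) (hl : 1 ≤ l) (α₀ : ℝ) (h0 : 0 ≤ α₀) (h1 : α₀ ≤ l) :
    ¬ Holds l (α₀ : EReal) :=
  Pool.Agent.Helper58.LD.not_holds l hl α₀ h0 h1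

end Pool.Agent.Results.MP_78803a_an.FailsUpToL
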